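import Pool.Agent.Q217.CR.Main

set_option autoImplicit false

/-! The counting theorem for prefix-free complexity. -/

namespace Q217.CB

open Pool.Agent.Helper444.CKGame (card_short kraft)
open Q217.KT
open Q217.CO (primrec_sum primrec_pow enum_graph)

section Defs

variable (e : ℕ → Option (List Bool × List Bool))

/-- The contribution of the item `i` to the mass of `n` at time `t`, in units of `2 ^ (-t)`. -/
def aterm (n t i : ℕ) : ℕ :=
  match e i with
  | none => 0
  | some o => if o.2.length = n ∧ o.1.length ≤ t then 2 ^ (t - o.1.length) else 0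

/-- The mass of `n` at time `t`, in units of `2 ^ (-t)`. -/
def aN (n t : ℕ) : ℕ := ∑ i ∈ Finset.range t, aterm e n t i

/-- The mass of `n` at time `t` is at least `2 ^ (-k)`. -/
def cnd (n k t : ℕ) : Prop := 2 ^ t ≤ 2 ^ k * aN e n t

instance (n k t : ℕ) : Decidable (cnd e n k t) := by unfold cnd; infer_instance

/-- The request found at time `t`. -/
def rq (n k t : ℕ) : Option (ℕ × List Bool) :=
  if cnd e n k (t + 1) ∧ ¬ cnd e n k t then some (k + 1, natStr n) else none

/-- The requests. -/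
def req (i : ℕ) : Option (ℕ × List Bool) :=
  rq e i.unpair.1 i.unpair.2.unpair.1 i.unpair.2.unpair.2

/-- The contribution as a real number. -/
noncomputable def rterm (n t i : ℕ) : ℝ :=
  match e i with
  | none => 0
  | some o => if o.2.length = n ∧ o.1.length ≤ t then (1 / 2) ^ o.1.length else 0

/-- The mass as a real number. -/
noncomputable def aR (n t : ℕ) : ℝ := ∑ i ∈ Finset.range t, rterm e n t i

end Defs

variable {e : ℕ → Option (List Bool × List Bool)}

theorem aterm_real (n t i : ℕ) : (aterm e n t i : ℝ) = 2 ^ t * rterm e n t i := by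
  unfold aterm rterm
  cases e i with
  | none => simp
  | some o =>
    show (((if o.2.length = n ∧ o.1.length ≤ t then 2 ^ (t - o.1.length) else 0 : ℕ)) : ℝ) =
      2 ^ t * (if o.2.length = n ∧ o.1.length ≤ t then (1 / 2) ^ o.1.length else 0)
    split_ifs with h
    · obtain ⟨d, hd⟩ := Nat.exists_eq_add_of_le h.2
      have h1 : t - o.1.length = d := by omega
      rw [h1]
      conv_rhs => rw [hd, pow_add]
      have : (2 : ℝ) ^ o.1.length * (1 / 2) ^ o.1.length = 1 := by rw [← mul_pow]; norm_num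
      push_cast
      calc (2 : ℝ) ^ d = 2 ^ d * (2 ^ o.1.length * (1 / 2) ^ o.1.length) := by rw [this, mul_one]
        _ = _ := by ring
    · simp

theorem aN_real (n t : ℕ) : (aN e n t : ℝ) = 2 ^ t * aR e n t := by
  unfold aN aR
  rw [Nat.cast_sum, Finset.mul_sum]
  exact Finset.sum_congr rfl fun i _ => aterm_real n t i

theorem rterm_nonneg (n t i : ℕ) : 0 ≤ rterm e n t i := by
  unfold rterm
  cases e i with
  | none => exact le_refl _
  | some o =>
    show 0 ≤ (if o.2.length = n ∧ o.1.length ≤ t then ((1 : ℝ) / 2) ^ o.1.length else 0)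
    split_ifs
    · positivity
    · exact le_refl _

theorem aR_nonneg (n t : ℕ) : 0 ≤ aR e n t := Finset.sum_nonneg fun i _ => rterm_nonneg n t i

theorem rterm_mono {s t : ℕ} (h : s ≤ t) (n i : ℕ) : rterm e n s i ≤ rterm e n t i := by
  unfold rterm
  cases e i with
  | none => exact le_refl _
  | some o =>
    show (if o.2.length = n ∧ o.1.length ≤ s then ((1 : ℝ) / 2) ^ o.1.length else 0) ≤
      (if o.2.length = n ∧ o.1.length ≤ t then ((1 : ℝ) / 2) ^ o.1.length else 0)
    by_cases h1 : o.2.length = n ∧ o.1.length ≤ s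
    · rw [if_pos h1, if_pos ⟨h1.1, h1.2.trans h⟩]
    · rw [if_neg h1]
      split_ifs
      · positivity
      · exact le_refl _

theorem aR_mono {s t : ℕ} (h : s ≤ t) (n : ℕ) : aR e n s ≤ aR e n t := by
  unfold aR
  exact (Finset.sum_le_sum fun i _ => rterm_mono h n i).trans
    (Finset.sum_le_sum_of_subset_of_nonneg (Finset.range_mono h) fun i _ _ => rterm_nonneg n t i)

theorem cnd_iff (n k t : ℕ) : cnd e n k t ↔ (1 / 2) ^ k ≤ aR e n t := by
  unfold cnd
  rw [← Nat.cast_le (α := ℝ)]
  push_cast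
  rw [aN_real, ← mul_assoc, mul_comm ((2 : ℝ) ^ k), mul_assoc]
  have h2 : (0 : ℝ) < 2 ^ t := by positivity
  have h3 : (0 : ℝ) < 2 ^ k := by positivity
  constructor
  · intro h
    have h4 : 1 ≤ 2 ^ k * aR e n t := by
      by_contra hcon
      rw [not_le] at hcon
      have := mul_lt_mul_of_pos_left hcon h2
      linarith
    rw [one_div, inv_pow, inv_le_iff_one_le_mul₀ h3, mul_comm]
    exact h4
  · intro h
    rw [one_div, inv_pow, inv_le_iff_one_le_mul₀ h3, mul_comm] at h
    calc (2 : ℝ) ^ t = 2 ^ t * 1 := (mul_one _).symm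
      _ ≤ _ := mul_le_mul_of_nonneg_left h h2.le

theorem cnd_mono {s t : ℕ} (h : s ≤ t) {n k : ℕ} (hs : cnd e n k s) : cnd e n k t :=
  (cnd_iff n k t).2 (((cnd_iff n k s).1 hs).trans (aR_mono h n))

theorem not_cnd_zero {n k : ℕ} : ¬ cnd e n k 0 := by
  rw [cnd_iff, not_le]
  unfold aR
  rw [Finset.range_zero, Finset.sum_empty]
  positivity

theorem exists_req {n k t : ℕ} (h : cnd e n k t) : ∃ i, req e i = some (k + 1, natStr n) := by
  induction t with
  | zero => exact absurd h not_cnd_zero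
  | succ t ih =>
    by_cases h' : cnd e n k t
    · exact ih h'
    · refine ⟨Nat.pair n (Nat.pair k t), ?_⟩
      unfold req
      rw [Nat.unpair_pair]
      show rq e n (Nat.pair k t).unpair.1 (Nat.pair k t).unpair.2 = _
      rw [Nat.unpair_pair]
      exact if_pos ⟨h, h'⟩

theorem req_some {i : ℕ} (h : (req e i).isSome) :
    cnd e i.unpair.1 i.unpair.2.unpair.1 (i.unpair.2.unpair.2 + 1) ∧
      ¬ cnd e i.unpair.1 i.unpair.2.unpair.1 i.unpair.2.unpair.2 ∧
      req e i = some (i.unpair.2.unpair.1 + 1, natStr i.unpair.1) := by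
  unfold req rq at h ⊢
  by_cases hc : cnd e i.unpair.1 i.unpair.2.unpair.1 (i.unpair.2.unpair.2 + 1) ∧
      ¬ cnd e i.unpair.1 i.unpair.2.unpair.1 i.unpair.2.unpair.2
  · exact ⟨hc.1, hc.2, if_pos hc⟩
  · rw [if_neg hc] at h
    exact absurd h (by simp)

open Classical in
theorem half_sum (a : ℝ) (ha : 0 ≤ a) (N : ℕ) :
    (∑ k ∈ Finset.range N, if (1 / 2 : ℝ) ^ k ≤ a then (1 / 2 : ℝ) ^ (k + 1) else 0) ≤ a := by
  have h : (∑ k ∈ Finset.range N, if (1 / 2 : ℝ) ^ k ≤ a then (1 / 2 : ℝ) ^ (k + 1) else 0) = 0 ∨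
      (∑ k ∈ Finset.range N, if (1 / 2 : ℝ) ^ k ≤ a then (1 / 2 : ℝ) ^ (k + 1) else 0) ≤
        a - (1 / 2) ^ N := by
    induction N with
    | zero => exact Or.inl (by simp)
    | succ N ih =>
      rw [Finset.sum_range_succ]
      have hN : (1 / 2 : ℝ) ^ (N + 1) = (1 / 2) ^ N / 2 := by rw [pow_succ]; ring
      have hp : (0 : ℝ) < (1 / 2) ^ N := by positivity
      by_cases hk : (1 / 2 : ℝ) ^ N ≤ a
      · rw [if_pos hk]
        right
        rcases ih with ih | ih
        · rw [ih, hN]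
          linarith
        · rw [hN]
          linarith
      · rw [if_neg hk, add_zero]
        rcases ih with ih | ih
        · exact Or.inl ih
        · right
          rw [hN]
          linarith
  rcases h with h | h
  · rw [h]
    exact ha
  · have hp : (0 : ℝ) < (1 / 2) ^ N := by positivity
    linarith

/-- The total mass is at most one. -/
theorem sum_aR_le (he3 : ∀ m n q x y, e m = some (q, x) → e n = some (q, y) → m = n)
    (hpf : ∀ m n p q x y, e m = some (p, x) → e n = some (q, y) → p <+: q → p = q) (N : ℕ) :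
    ∑ n ∈ Finset.range N, aR e n N ≤ 1 := by
  classical
  unfold aR
  rw [Finset.sum_comm]
  set F := (Finset.range N).filter fun i => (e i).isSome with hF
  have h1 : ∀ i ∈ Finset.range N, ∑ n ∈ Finset.range N, rterm e n N i ≤
      if (e i).isSome then (1 / 2 : ℝ) ^ ((e i).getD ([], [])).1.length else 0 := by
    intro i _
    unfold rterm
    cases e i with
    | none => simp
    | some o =>
      show (∑ n ∈ Finset.range N, if o.2.length = n ∧ o.1.length ≤ N then
        ((1 : ℝ) / 2) ^ o.1.length else 0) ≤ (if (some o).isSome then (1 / 2 : ℝ) ^ o.1.length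
          else 0)
      rw [if_pos (by rfl)]
      have h2 : ∀ n ∈ Finset.range N, (if o.2.length = n ∧ o.1.length ≤ N then
          ((1 : ℝ) / 2) ^ o.1.length else 0) ≤
          if o.2.length = n then (1 / 2 : ℝ) ^ o.1.length else 0 := by
        intro n _
        by_cases hn : o.2.length = n
        · rw [if_pos hn]
          split_ifs
          · exact le_refl _
          · positivity
        · rw [if_neg hn, if_neg fun h => hn h.1]
      refine (Finset.sum_le_sum h2).trans ?_
      rw [Finset.sum_ite_eq]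
      split_ifs
      · exact le_refl _
      · positivity
  refine (Finset.sum_le_sum h1).trans ?_
  rw [← Finset.sum_filter, ← hF]
  have hsp : ∀ i ∈ F, ∃ x, e i = some (((e i).getD ([], [])).1, x) := by
    intro i hi
    obtain ⟨o, ho⟩ := Option.isSome_iff_exists.1 (Finset.mem_filter.1 hi).2
    exact ⟨o.2, by rw [ho]; rfl⟩
  have hinj : Set.InjOn (fun i => ((e i).getD ([], [])).1) F := by
    intro i hi j hj hij
    obtain ⟨x, hx⟩ := hsp i hi
    obtain ⟨y, hy⟩ := hsp j hj
    have hij' : ((e i).getD ([], [])).1 = ((e j).getD ([], [])).1 := hij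
    rw [hij'] at hx
    exact he3 _ _ _ _ _ hx hy
  have h2 : ∑ i ∈ F, (1 / 2 : ℝ) ^ ((e i).getD ([], [])).1.length =
      ∑ p ∈ F.image (fun i => ((e i).getD ([], [])).1), (1 / 2 : ℝ) ^ p.length := by
    rw [Finset.sum_image hinj]
  rw [h2]
  refine kraft _ ?_
  intro p hp q hq hpq
  obtain ⟨i, hi, rfl⟩ := Finset.mem_image.1 hp
  obtain ⟨j, hj, rfl⟩ := Finset.mem_image.1 hq
  obtain ⟨x, hx⟩ := hsp i hi
  obtain ⟨y, hy⟩ := hsp j hj
  exact hpf _ _ _ _ _ _ hx hy hpq

/-- The weight of the requests. -/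
theorem sum_req_le (he3 : ∀ m n q x y, e m = some (q, x) → e n = some (q, y) → m = n)
    (hpf : ∀ m n p q x y, e m = some (p, x) → e n = some (q, y) → p <+: q → p = q) (N : ℕ) :
    ∑ i ∈ Finset.range N, Pool.Agent.Helper227.KC.wr (req e) i ≤ 1 := by
  classical
  set F := (Finset.range N).filter fun i => (req e i).isSome with hF
  have h1 : ∑ i ∈ Finset.range N, Pool.Agent.Helper227.KC.wr (req e) i =
      ∑ i ∈ F, (1 / 2 : ℝ) ^ (i.unpair.2.unpair.1 + 1) := by
    rw [hF, Finset.sum_filter]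
    refine Finset.sum_congr rfl fun i _ => ?_
    unfold Pool.Agent.Helper227.KC.wr
    by_cases h : (req e i).isSome
    · rw [if_pos h, (req_some h).2.2]
      rfl
    · rw [if_neg h]
      rw [Option.not_isSome_iff_eq_none] at h
      rw [h]
      rfl
  rw [h1]
  have hinj : Set.InjOn (fun i : ℕ => (i.unpair.1, i.unpair.2.unpair.1)) F := by
    intro i hi j hj hij
    have hi' := req_some (Finset.mem_filter.1 hi).2
    have hj' := req_some (Finset.mem_filter.1 hj).2
    obtain ⟨e1, e2⟩ := Prod.mk.injEq _ _ _ _ ▸ hij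
    rw [← e1, ← e2] at hj'
    have e3 : i.unpair.2.unpair.2 = j.unpair.2.unpair.2 := by
      rcases lt_trichotomy i.unpair.2.unpair.2 j.unpair.2.unpair.2 with h | h | h
      · exact absurd (cnd_mono (Nat.succ_le_of_lt h) hi'.1) hj'.2.1
      · exact h
      · exact absurd (cnd_mono (Nat.succ_le_of_lt h) hj'.1) hi'.2.1
    have e4 : i.unpair.2 = j.unpair.2 := by
      rw [← Nat.pair_unpair i.unpair.2, ← Nat.pair_unpair j.unpair.2, e2, e3]
    rw [← Nat.pair_unpair i, ← Nat.pair_unpair j, e1, e4]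
  have h2 : ∑ i ∈ F, (1 / 2 : ℝ) ^ (i.unpair.2.unpair.1 + 1) =
      ∑ z ∈ F.image (fun i : ℕ => (i.unpair.1, i.unpair.2.unpair.1)),
        (1 / 2 : ℝ) ^ (z.2 + 1) := by
    rw [Finset.sum_image hinj]
  rw [h2]
  have h3 : F.image (fun i : ℕ => (i.unpair.1, i.unpair.2.unpair.1)) ⊆
      (Finset.range N ×ˢ Finset.range N).filter fun z => (1 / 2 : ℝ) ^ z.2 ≤ aR e z.1 N := by
    intro z hz
    obtain ⟨i, hi, rfl⟩ := Finset.mem_image.1 hz
    have hiN := Finset.mem_range.1 (Finset.mem_filter.1 hi).1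
    have hi' := req_some (Finset.mem_filter.1 hi).2
    have a1 := Nat.unpair_left_le i
    have a2 := Nat.unpair_right_le i
    have a3 := Nat.unpair_left_le i.unpair.2
    have a4 := Nat.unpair_right_le i.unpair.2
    rw [Finset.mem_filter, Finset.mem_product, Finset.mem_range, Finset.mem_range]
    refine ⟨⟨lt_of_le_of_lt a1 hiN, lt_of_le_of_lt (a3.trans a2) hiN⟩, ?_⟩
    have h4 := cnd_mono (show i.unpair.2.unpair.2 + 1 ≤ N by omega) hi'.1
    exact (cnd_iff _ _ _).1 h4
  refine (Finset.sum_le_sum_of_subset_of_nonneg h3 fun _ _ _ => by positivity).trans ?_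
  rw [Finset.sum_filter, Finset.sum_product]
  refine (Finset.sum_le_sum fun n _ => half_sum (aR e n N) (aR_nonneg n N) N).trans ?_
  exact sum_aR_le he3 hpf N

section Prim

theorem primrec_cnd (he : Primrec e) :
    PrimrecPred fun z : ℕ × ℕ × ℕ => cnd e z.1 z.2.1 z.2.2 := by
  have ht : Primrec fun z : (ℕ × ℕ) × ℕ => aterm e z.1.1 z.1.2 z.2 := by
    let β : Type := ((ℕ × ℕ) × ℕ) × (List Bool × List Bool)
    have n : Primrec fun z : β => z.1.1.1 := Primrec.fst.comp (Primrec.fst.comp Primrec.fst)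
    have t : Primrec fun z : β => z.1.1.2 := Primrec.snd.comp (Primrec.fst.comp Primrec.fst)
    have l1 : Primrec fun z : β => z.2.1.length :=
      Primrec.list_length.comp (Primrec.fst.comp Primrec.snd)
    have l2 : Primrec fun z : β => z.2.2.length :=
      Primrec.list_length.comp (Primrec.snd.comp Primrec.snd)
    have body : Primrec fun z : β => if z.2.2.length = z.1.1.1 ∧ z.2.1.length ≤ z.1.1.2 then
        2 ^ (z.1.1.2 - z.2.1.length) else 0 :=
      Primrec.ite (PrimrecPred.and (Primrec.eq.comp l2 n) (Primrec.nat_le.comp l1 t))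
        (primrec_pow.comp (Primrec.const 2) (Primrec.nat_sub.comp t l1)) (Primrec.const 0)
    refine (Primrec.option_casesOn (he.comp Primrec.snd) (Primrec.const 0) body.to₂).of_eq
      fun z => ?_
    unfold aterm
    cases e z.2 <;> rfl
  have hs : Primrec fun z : ℕ × ℕ => aN e z.1 z.2 :=
    primrec_sum (f := fun (z : ℕ × ℕ) i => aterm e z.1 z.2 i) (g := fun z => z.2) ht Primrec.snd
  have hk : Primrec fun z : ℕ × ℕ × ℕ => z.2.1 := Primrec.fst.comp Primrec.snd
  have ht2 : Primrec fun z : ℕ × ℕ × ℕ => z.2.2 := Primrec.snd.comp Primrec.snd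
  exact Primrec.nat_le.comp (primrec_pow.comp (Primrec.const 2) ht2) (Primrec.nat_mul.comp
    (primrec_pow.comp (Primrec.const 2) hk) (hs.comp (Primrec.pair Primrec.fst ht2)))

theorem primrec_req (he : Primrec e) : Primrec (req e) := by
  have h1 : Primrec fun z : ℕ × ℕ × ℕ => rq e z.1 z.2.1 z.2.2 := by
    have n : Primrec fun z : ℕ × ℕ × ℕ => z.1 := Primrec.fst
    have k : Primrec fun z : ℕ × ℕ × ℕ => z.2.1 := Primrec.fst.comp Primrec.snd
    have t : Primrec fun z : ℕ × ℕ × ℕ => z.2.2 := Primrec.snd.comp Primrec.snd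
    refine Primrec.ite (PrimrecPred.and ?_ (PrimrecPred.not ?_)) ?_ (Primrec.const none)
    · exact (primrec_cnd he).comp (Primrec.pair n (Primrec.pair k (Primrec.succ.comp t)))
    · exact primrec_cnd he
    · exact Primrec.option_some.comp (Primrec.pair (Primrec.succ.comp k) (primrec_natStr.comp n))
  have u1 : Primrec fun i : ℕ => i.unpair.1 := Primrec.fst.comp Primrec.unpair
  have u2 : Primrec fun i : ℕ => i.unpair.2 := Primrec.snd.comp Primrec.unpair
  exact h1.comp (Primrec.pair u1 (Primrec.pair (u1.comp u2) (u2.comp u2)))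

end Prim

/-- The counting theorem. -/
theorem counting {U : List Bool →. List Bool} (hU : OptimalPrefixFree U) :
    ∃ c : ℕ, ∀ (n r : ℕ) (F : Finset (List Bool)),
      (∀ x ∈ F, x.length = n ∧ cx U x ≤ r) → F.card * 2 ^ cx U (natStr n) ≤ 2 ^ (r + c) := by
  classical
  obtain ⟨e, he, he2, he3⟩ := enum_graph hU.1.1
  have hpf : ∀ m n p q x y, e m = some (p, x) → e n = some (q, y) → p <+: q → p = q := by
    intro m n p q x y hp hq hpq
    exact hU.1.2 p q (Part.dom_iff_mem.2 ⟨x, (he2 _ _).2 ⟨m, hp⟩⟩)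
      (Part.dom_iff_mem.2 ⟨y, (he2 _ _).2 ⟨n, hq⟩⟩) hpq
  obtain ⟨M, hM, hMpf, hM2⟩ := Pool.Agent.Helper227.KC.kraft_chaitin (primrec_req he)
    (sum_req_le he3 hpf)
  obtain ⟨c, hc⟩ := hU.2 M ⟨hM, hMpf⟩
  refine ⟨c + 2, fun n r F hF => ?_⟩
  rcases F.eq_empty_or_nonempty with h0 | hne
  · rw [h0, Finset.card_empty, Nat.zero_mul]
    exact Nat.zero_le _
  have hcard := hne.card_pos
  -- the programs
  have hch : ∀ x ∈ F, ∃ q : List Bool, q.length ≤ r ∧ ∃ i, e i = some (q, x) := by
    intro x hx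
    obtain ⟨q, hq, hxq⟩ := cx_spec (Q217.CR.prefix_exists hU x)
    obtain ⟨i, hi⟩ := (he2 _ _).1 hxq
    exact ⟨q, hq.trans_le (hF x hx).2, i, hi⟩
  choose! q hq hq' using hch
  choose! i hi using hq'
  set T := r + (F.sup i + 1) with hT
  have hmass : (F.card : ℝ) * (1 / 2) ^ r ≤ aR e n T := by
    have h1 : ∀ x ∈ F, (1 / 2 : ℝ) ^ r ≤ rterm e n T (i x) := by
      intro x hx
      unfold rterm
      rw [hi x hx]
      show (1 / 2 : ℝ) ^ r ≤ if x.length = n ∧ (q x).length ≤ T then (1 / 2) ^ (q x).length else 0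
      rw [if_pos ⟨(hF x hx).1, (hq x hx).trans (by omega)⟩]
      exact pow_le_pow_of_le_one (by norm_num) (by norm_num) (hq x hx)
    have hinj : Set.InjOn i F := by
      intro x hx y hy hxy
      have h2 := hi x hx
      have h3 := hi y hy
      rw [hxy, h3] at h2
      exact (congrArg Prod.snd (Option.some_injective _ h2)).symm
    calc (F.card : ℝ) * (1 / 2) ^ r = ∑ x ∈ F, (1 / 2 : ℝ) ^ r := by
          rw [Finset.sum_const, nsmul_eq_mul]
      _ ≤ ∑ x ∈ F, rterm e n T (i x) := Finset.sum_le_sum h1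
      _ = ∑ j ∈ F.image i, rterm e n T j := by rw [Finset.sum_image hinj]
      _ ≤ ∑ j ∈ Finset.range T, rterm e n T j := by
          refine Finset.sum_le_sum_of_subset_of_nonneg ?_ fun _ _ _ => rterm_nonneg _ _ _
          intro j hj
          obtain ⟨x, hx, rfl⟩ := Finset.mem_image.1 hj
          have : i x ≤ F.sup i := Finset.le_sup hx
          rw [Finset.mem_range]
          omega
  have hex : ∃ k, 2 ^ r ≤ 2 ^ k * F.card := ⟨r, Nat.le_mul_of_pos_right _ hcard⟩
  have hk := Nat.find_spec hex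
  have hkmin : ∀ k' < Nat.find hex, 2 ^ k' * F.card < 2 ^ r := fun k' hk' =>
    not_le.1 (Nat.find_min hex hk')
  set k := Nat.find hex with hkdef
  have hcnd : cnd e n k T := by
    rw [cnd_iff]
    refine le_trans ?_ hmass
    have h1 : (2 : ℝ) ^ r ≤ 2 ^ k * F.card := by exact_mod_cast hk
    have h2 : (2 : ℝ) ^ r * (1 / 2) ^ r = 1 := by rw [← mul_pow]; norm_num
    have h3 : (2 : ℝ) ^ k * (1 / 2) ^ k = 1 := by rw [← mul_pow]; norm_num
    calc (1 / 2 : ℝ) ^ k = (1 / 2) ^ k * (1 / 2) ^ r * 2 ^ r := by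
          rw [mul_assoc, mul_comm ((1 / 2 : ℝ) ^ r), h2, mul_one]
      _ ≤ (1 / 2) ^ k * (1 / 2) ^ r * (2 ^ k * F.card) :=
          mul_le_mul_of_nonneg_left h1 (by positivity)
      _ = (2 ^ k * (1 / 2) ^ k) * (F.card * (1 / 2) ^ r) := by ring
      _ = _ := by rw [h3, one_mul]
  obtain ⟨j, hj⟩ := exists_req hcnd
  obtain ⟨τ, hτ, hy⟩ := hM2 _ _ _ hj
  obtain ⟨p, hp, hpx⟩ := hc τ _ hy
  have h1 : cx U (natStr n) ≤ k + 1 + c := (cx_le hpx).trans (by omega)
  have h2 : F.card * 2 ^ cx U (natStr n) ≤ F.card * 2 ^ (k + 1 + c) :=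
    Nat.mul_le_mul_left _ (Nat.pow_le_pow_right (by norm_num) h1)
  refine h2.trans ?_
  rcases Nat.eq_zero_or_pos k with hk0 | hkpos
  · rw [hk0]
    have h3 : F.card < 2 ^ (r + 1) := by
      have hinj : Set.InjOn q F := by
        intro x hx y hy hxy
        have h3 := hi x hx
        have h4 := hi y hy
        rw [hxy] at h3
        have h5 := he3 _ _ _ _ _ h3 h4
        rw [h5, h4] at h3
        exact (congrArg Prod.snd (Option.some_injective _ h3)).symm
      rw [← Finset.card_image_of_injOn hinj]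
      refine card_short _ _ ?_
      intro p hp
      obtain ⟨x, hx, rfl⟩ := Finset.mem_image.1 hp
      exact hq x hx
    calc F.card * 2 ^ (0 + 1 + c) ≤ 2 ^ (r + 1) * 2 ^ (0 + 1 + c) := Nat.mul_le_mul_right _ h3.le
      _ = 2 ^ (r + (c + 2)) := by rw [← pow_add]; congr 1; omega
  · have h3 := (hkmin (k - 1) (by omega)).le
    calc F.card * 2 ^ (k + 1 + c) = 2 ^ (k - 1) * F.card * 2 ^ (c + 2) := by
          have : k + 1 + c = k - 1 + (c + 2) := by omega
          rw [this, pow_add]
          ring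
      _ ≤ 2 ^ r * 2 ^ (c + 2) := Nat.mul_le_mul_right _ h3
      _ = 2 ^ (r + (c + 2)) := by rw [← pow_add]

end Q217.CB
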