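import Pool.Agent.Q217.CB.Count

set_option autoImplicit false

/-! (B2) implies (A2). -/

namespace Q217.CB

open MeasureTheory Q217.KT Q217.CR
open scoped ENNReal
open Pool.Agent.Helper444.CKGame (num exists_num)
open Q217.CO (primrec_num)

/-- There is a list of the strings of length `n` in which the index of `x` is less than the number
of the strings of at most the same value of `h`. -/
theorem exists_sorted (h : List Bool → ℕ) (n : ℕ) : ∃ L : List (List Bool),
    ∀ x : List Bool, x.length = n → ∃ i, L[i]? = some x ∧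
      i < ((strsF n).filter fun y => h y ≤ h x).card := by
  classical
  let r : List Bool → List Bool → Prop := fun a b => h a ≤ h b
  set L := (strsL n).insertionSort r with hL
  have hperm : L.Perm (strsL n) := List.perm_insertionSort r (strsL n)
  have hnd : L.Nodup := hperm.nodup_iff.2 (nodup_strsL n)
  have hsort : L.Pairwise r := by
    haveI : Std.Total r := ⟨fun a b => le_total (h a) (h b)⟩
    haveI : IsTrans (List Bool) r := ⟨fun a b c => le_trans⟩
    exact List.pairwise_insertionSort r (strsL n)
  refine ⟨L, fun x hx => ?_⟩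
  have hmem : x ∈ L := hperm.mem_iff.2 (mem_strsL.2 hx)
  obtain ⟨i, hi, hxi⟩ := List.getElem_of_mem hmem
  refine ⟨i, ?_, ?_⟩
  · rw [List.getElem?_eq_getElem hi, hxi]
  · have h1 : (Finset.range (i + 1)).card ≤ ((strsF n).filter fun y => h y ≤ h x).card := by
      refine Finset.card_le_card_of_injOn (fun j => L.getD j []) ?_ ?_
      · intro j hj
        have hj' : j ≤ i := Nat.lt_succ_iff.1 (Finset.mem_range.1 (Finset.mem_coe.1 hj))
        have hjL : j < L.length := lt_of_le_of_lt hj' hi
        have e1 : L.getD j [] = L[j] := List.getD_eq_getElem _ _ hjL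
        show L.getD j [] ∈ _
        rw [e1]
        rw [Finset.mem_coe, Finset.mem_filter]
        refine ⟨mem_strsF.2 (mem_strsL.1 (hperm.mem_iff.1 (List.getElem_mem hjL))), ?_⟩
        rcases hj'.lt_or_eq with hlt | heq
        · have := List.pairwise_iff_getElem.1 hsort j i hjL hi hlt
          rw [hxi] at this
          exact this
        · subst heq
          rw [hxi]
      · intro j hj j' hj' hjj
        have hj1 : j < L.length := lt_of_le_of_lt
          (Nat.lt_succ_iff.1 (Finset.mem_range.1 (Finset.mem_coe.1 hj))) hi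
        have hj2 : j' < L.length := lt_of_le_of_lt
          (Nat.lt_succ_iff.1 (Finset.mem_range.1 (Finset.mem_coe.1 hj'))) hi
        have e1 : L.getD j [] = L[j] := List.getD_eq_getElem _ _ hj1
        have e2 : L.getD j' [] = L[j'] := List.getD_eq_getElem _ _ hj2
        have hjj' : L.getD j [] = L.getD j' [] := hjj
        rw [e1, e2] at hjj'
        exact (hnd.getElem_inj_iff).1 hjj'
    rw [Finset.card_range] at h1
    omega

/-- The decoder for the parameter `d`. -/
def outK (d : ℕ) (r : List Bool) : Option (List Bool) :=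
  (Encodable.decode (α := List (List Bool)) (r.length + d).unpair.2).bind fun L =>
    (L[num (r.take ((r.length + d).unpair.1 - d))]?).map fun x =>
      x ++ r.drop ((r.length + d).unpair.1 - d)

/-- The decoder. -/
def outD (w : List Bool) : Option (List Bool) :=
  outK (2 * w.idxOf false + (if (w.drop (w.idxOf false + 1)).head? = some true then 1 else 0))
    (w.drop (w.idxOf false + 2))

theorem primrec_outK : Primrec₂ outK := by
  have m : Primrec fun z : ℕ × List Bool => z.2.length + z.1 :=
    Primrec.nat_add.comp (Primrec.list_length.comp Primrec.snd) Primrec.fst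
  have u1 : Primrec fun z : ℕ × List Bool => (z.2.length + z.1).unpair.1 :=
    Primrec.fst.comp (Primrec.unpair.comp m)
  have u2 : Primrec fun z : ℕ × List Bool => (z.2.length + z.1).unpair.2 :=
    Primrec.snd.comp (Primrec.unpair.comp m)
  have k : Primrec fun z : ℕ × List Bool => (z.2.length + z.1).unpair.1 - z.1 :=
    Primrec.nat_sub.comp u1 Primrec.fst
  have dec : Primrec fun z : ℕ × List Bool =>
      (Encodable.decode (z.2.length + z.1).unpair.2 : Option (List (List Bool))) :=
    Primrec.decode.comp u2
  let β : Type := (ℕ × List Bool) × List (List Bool)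
  have ix : Primrec fun z : β =>
      z.2[num (z.1.2.take ((z.1.2.length + z.1.1).unpair.1 - z.1.1))]? :=
    Primrec.list_getElem?.comp Primrec.snd (primrec_num.comp (Primrec.list_take.comp
      (k.comp Primrec.fst) (Primrec.snd.comp Primrec.fst)))
  have ap : Primrec₂ fun (z : β) (x : List Bool) =>
      x ++ z.1.2.drop ((z.1.2.length + z.1.1).unpair.1 - z.1.1) :=
    (Primrec.list_append.comp Primrec.snd (Primrec.list_drop.comp
      (k.comp (Primrec.fst.comp Primrec.fst)) (Primrec.snd.comp (Primrec.fst.comp
      Primrec.fst)))).to₂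
  have body : Primrec₂ fun (z : ℕ × List Bool) (L : List (List Bool)) =>
      (L[num (z.2.take ((z.2.length + z.1).unpair.1 - z.1))]?).map fun x =>
      x ++ z.2.drop ((z.2.length + z.1).unpair.1 - z.1) := (Primrec.option_map ix ap).to₂
  exact (Primrec.option_bind dec body).to₂

theorem primrec_outD : Primrec outD := by
  have i : Primrec fun w : List Bool => w.idxOf false :=
    Primrec.list_idxOf.comp (Primrec.const false) Primrec.id
  have b : Primrec fun w : List Bool =>
      if (w.drop (w.idxOf false + 1)).head? = some true then 1 else 0 :=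
    Primrec.ite (Primrec.eq.comp (Primrec.list_head?.comp (Primrec.list_drop.comp
      (Primrec.succ.comp i) Primrec.id)) (Primrec.const (some true))) (Primrec.const 1)
      (Primrec.const 0)
  exact primrec_outK.comp (Primrec.nat_add.comp (Primrec.nat_mul.comp (Primrec.const 2) i)
    b) (Primrec.list_drop.comp (Primrec.nat_add.comp i (Primrec.const 2)) Primrec.id)

theorem outK_spec {n d i : ℕ} {L : List (List Bool)} {y : List Bool}
    (hy : y.length = Nat.pair n (Encodable.encode L)) (hd : d ≤ n)
    (hi : L[i]? = some (y.take n)) (hi2 : i < 2 ^ (n - d)) :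
    ∃ r : List Bool, r.length + d = y.length ∧ outK d r = some y := by
  have hny : n ≤ y.length := by
    rw [hy]
    exact Nat.left_le_pair _ _
  obtain ⟨u, hu, hnum⟩ := exists_num hi2
  have hl : (u ++ y.drop n).length + d = y.length := by
    rw [List.length_append, hu, List.length_drop]
    omega
  refine ⟨u ++ y.drop n, hl, ?_⟩
  unfold outK
  rw [hl, hy, Nat.unpair_pair]
  simp only [Encodable.encodek, Option.bind_some]
  have h1 : (u ++ y.drop n).take (n - d) = u := by
    rw [← hu, List.take_left]
  have h2 : (u ++ y.drop n).drop (n - d) = y.drop n := by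
    rw [← hu, List.drop_left]
  rw [h1, h2, hnum, hi]
  show some (y.take n ++ y.drop n) = some y
  rw [List.take_append_drop]

theorem outD_spec {n d i : ℕ} {L : List (List Bool)} {y : List Bool}
    (hy : y.length = Nat.pair n (Encodable.encode L)) (hd : d ≤ n)
    (hi : L[i]? = some (y.take n)) (hi2 : i < 2 ^ (n - d)) :
    ∃ w : List Bool, w.length + d = y.length + 2 + d / 2 ∧ outD w = some y := by
  obtain ⟨r, hr, ho⟩ := outK_spec hy hd hi hi2
  refine ⟨List.replicate (d / 2) true ++ (false :: decide (d % 2 = 1) :: r), ?_, ?_⟩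
  · rw [List.length_append, List.length_replicate, List.length_cons, List.length_cons]
    omega
  · have h1 : (List.replicate (d / 2) true ++ (false :: decide (d % 2 = 1) :: r)).idxOf false =
        d / 2 := by
      rw [List.idxOf_append_of_notMem]
      · rw [List.idxOf_cons_self, List.length_replicate, Nat.add_zero]
      · intro h
        exact absurd (List.eq_of_mem_replicate h) (by simp)
    unfold outD
    rw [h1]
    have h2 : (List.replicate (d / 2) true ++ (false :: decide (d % 2 = 1) :: r)).drop
        (d / 2 + 1) = decide (d % 2 = 1) :: r := by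
      have e1 : List.replicate (d / 2) true ++ (false :: decide (d % 2 = 1) :: r) =
          (List.replicate (d / 2) true ++ [false]) ++ (decide (d % 2 = 1) :: r) := by simp
      have e2 : d / 2 + 1 = (List.replicate (d / 2) true ++ [false]).length := by simp
      rw [e1, e2, List.drop_left]
    have h3 : (List.replicate (d / 2) true ++ (false :: decide (d % 2 = 1) :: r)).drop
        (d / 2 + 2) = r := by
      rw [show d / 2 + 2 = 1 + (d / 2 + 1) by omega, Nat.add_comm 1, ← List.drop_drop, h2]
      rfl
    rw [h2, h3]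
    have h4 : 2 * (d / 2) + (if (decide (d % 2 = 1) :: r).head? = some true then 1 else 0) = d := by
      rw [List.head?_cons]
      by_cases hk : d % 2 = 1
      · rw [if_pos (by simp [hk])]
        omega
      · rw [if_neg (by simp [hk])]
        omega
    rw [h4]
    exact ho

theorem compress {V : List Bool →. List Bool} (hV : OptimalPlain V) : ∃ c : ℕ,
    ∀ (n d i : ℕ) (L : List (List Bool)) (y : List Bool),
      y.length = Nat.pair n (Encodable.encode L) → d ≤ n → L[i]? = some (y.take n) →
      i < 2 ^ (n - d) → cx V y + d ≤ y.length + d / 2 + c := by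
  have hM : Partrec fun w => ((outD w : Option (List Bool)) : Part (List Bool)) :=
    Computable.ofOption primrec_outD.to_comp
  obtain ⟨c, hc⟩ := hV.2 _ hM
  refine ⟨2 + c, fun n d i L y hy hd hi hi2 => ?_⟩
  obtain ⟨w, hw, ho⟩ := outD_spec hy hd hi hi2
  obtain ⟨q, hq, hxq⟩ := hc w y (by rw [ho]; exact Part.mem_some y)
  have := cx_le hxq
  omega

/-- The complexity of the length is bounded by the complexity of the string. -/
theorem length_le {U : List Bool →. List Bool} (hU : OptimalPrefixFree U) :
    ∃ c : ℕ, ∀ y, cx U (natStr y.length) ≤ cx U y + c := by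
  have hM : PrefixFree fun w => (U w).map fun y => natStr y.length := by
    refine ⟨Partrec.map hU.1.1 ((primrec_natStr.comp (Primrec.list_length.comp
      Primrec.snd)).to_comp).to₂, ?_⟩
    intro p q hp hq hpq
    exact hU.1.2 p q hp hq hpq
  obtain ⟨c, hc⟩ := hU.2 _ hM
  refine ⟨c, fun y => ?_⟩
  obtain ⟨p, hp, hpy⟩ := cx_spec (prefix_exists hU y)
  obtain ⟨q, hq, hx⟩ := hc p (natStr y.length) (Part.mem_map _ hpy)
  rw [← hp]
  exact (cx_le hx).trans hq

/-- **Theorem.** -/
theorem b2_a2 {V U : List Bool →. List Bool} (hV : OptimalPlain V) (hU : OptimalPrefixFree U)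
    (μ : Measure (ℕ → Bool)) [IsProbabilityMeasure μ]
    (hμ : ∃ c : ℝ, ∀ n : ℕ, (n : ℝ) - c ≤ avg V μ n) :
    ∃ c : ℝ, ∀ n : ℕ, (n : ℝ) + cx U (natStr n) - c ≤ avg U μ n := by
  obtain ⟨c, hμ⟩ := hμ
  obtain ⟨c1, hc1⟩ := compress hV
  obtain ⟨c2, hc2⟩ := counting hU
  obtain ⟨c3, hc3⟩ := length_le hU
  obtain ⟨c4, hc4⟩ := plain_le_length hV
  refine ⟨c3 + c2 + 2 * (c + (c1 + c4)), fun n => ?_⟩
  obtain ⟨L, hL⟩ := exists_sorted (cx U) n
  -- the deficiency
  let D : List Bool → ℕ := fun x => n - ((cx U x - cx U (natStr n)) + c2)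
  set m := Nat.pair n (Encodable.encode L) with hm
  have hnm : n ≤ m := Nat.left_le_pair _ _
  have key : ∀ X : ℕ → Bool, D (pre X n) ≤ 2 * (m + (c1 + c4) - cx V (pre X m)) := by
    intro X
    obtain ⟨i, hi, hi2⟩ := hL (pre X n) (pre_length X n)
    have h1 := hc2 n (cx U (natStr n) + (cx U (pre X n) - cx U (natStr n)))
      ((strsF n).filter fun y => cx U y ≤ cx U (pre X n)) (by
        intro y hy
        obtain ⟨hy1, hy2⟩ := Finset.mem_filter.1 hy
        refine ⟨mem_strsF.1 hy1, hy2.trans (by omega)⟩)
    have h2 : ((strsF n).filter fun y => cx U y ≤ cx U (pre X n)).card ≤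
        2 ^ ((cx U (pre X n) - cx U (natStr n)) + c2) := by
      refine Nat.le_of_mul_le_mul_right (h1.trans (le_of_eq ?_)) (show 0 < 2 ^ cx U (natStr n) by
        positivity)
      rw [← pow_add]
      congr 1
      omega
    have h3 : i < 2 ^ (n - D (pre X n)) := by
      show i < 2 ^ (n - (n - ((cx U (pre X n) - cx U (natStr n)) + c2)))
      by_cases hle : (cx U (pre X n) - cx U (natStr n)) + c2 ≤ n
      · have e1 : n - (n - ((cx U (pre X n) - cx U (natStr n)) + c2)) =
            (cx U (pre X n) - cx U (natStr n)) + c2 := by omega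
        rw [e1]
        exact lt_of_lt_of_le hi2 h2
      · have e1 : n - (n - ((cx U (pre X n) - cx U (natStr n)) + c2)) = n := by omega
        rw [e1, ← card_strsF n]
        exact lt_of_lt_of_le hi2 (Finset.card_le_card (Finset.filter_subset _ _))
    have h4 := hc1 n (D (pre X n)) i L (pre X m) (pre_length X m) (Nat.sub_le _ _)
      (by rw [pre_take X hnm]; exact hi) h3
    rw [pre_length] at h4
    omega
  have hint : ∫⁻ X, (D (pre X n) : ℝ≥0∞) ∂μ ≤
      ∫⁻ X, ((2 * (m + (c1 + c4) - cx V (pre X m)) : ℕ) : ℝ≥0∞) ∂μ :=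
    lintegral_mono fun X => Nat.cast_le.2 (key X)
  rw [lintegral_nat μ D n, lintegral_nat μ (fun x => 2 * (m + (c1 + c4) - cx V x)) m] at hint
  have hnn : 0 ≤ ∑ f : Fin m → Bool, μ.real (cyl (List.ofFn f)) *
      ((2 * (m + (c1 + c4) - cx V (List.ofFn f)) : ℕ) : ℝ) :=
    Finset.sum_nonneg fun f _ => mul_nonneg measureReal_nonneg (Nat.cast_nonneg _)
  rw [ENNReal.ofReal_le_ofReal_iff hnn] at hint
  have hR : ∑ f : Fin m → Bool, μ.real (cyl (List.ofFn f)) *
      ((2 * (m + (c1 + c4) - cx V (List.ofFn f)) : ℕ) : ℝ) =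
      2 * (m + (c1 + c4) - avg V μ m) := by
    have h2 : ∀ g : Fin m → Bool, μ.real (cyl (List.ofFn g)) *
        ((2 * (m + (c1 + c4) - cx V (List.ofFn g)) : ℕ) : ℝ) =
        μ.real (cyl (List.ofFn g)) * (2 * (m + (c1 + c4))) -
        2 * (μ.real (cyl (List.ofFn g)) * (cx V (List.ofFn g) : ℝ)) := by
      intro g
      have h3 : cx V (List.ofFn g) ≤ m + (c1 + c4) := by
        have := hc4 (List.ofFn g)
        rw [List.length_ofFn] at this
        omega
      push_cast [Nat.cast_sub h3]
      ring
    rw [Finset.sum_congr rfl fun g _ => h2 g, Finset.sum_sub_distrib, ← Finset.sum_mul,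
      ← Finset.mul_sum, sum_cyl]
    unfold avg
    ring
  rw [hR] at hint
  -- the prefix-free complexity
  have hA : ∀ f : Fin n → Bool, μ.real (cyl (List.ofFn f)) *
      ((n : ℝ) + cx U (natStr n) - (c3 + c2)) - μ.real (cyl (List.ofFn f)) *
      (D (List.ofFn f) : ℝ) ≤ μ.real (cyl (List.ofFn f)) * (cx U (List.ofFn f) : ℝ) := by
    intro f
    rw [← mul_sub]
    refine mul_le_mul_of_nonneg_left ?_ measureReal_nonneg
    have h1 := hc3 (List.ofFn f)
    rw [List.length_ofFn] at h1
    have h2 : n + cx U (natStr n) ≤ cx U (List.ofFn f) + (c3 + c2) + D (List.ofFn f) := by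
      show n + cx U (natStr n) ≤ cx U (List.ofFn f) + (c3 + c2) +
        (n - ((cx U (List.ofFn f) - cx U (natStr n)) + c2))
      omega
    have h3 : (n : ℝ) + cx U (natStr n) ≤ cx U (List.ofFn f) + (c3 + c2) + D (List.ofFn f) := by
      exact_mod_cast h2
    linarith
  have hB := Finset.sum_le_sum fun f (_ : f ∈ (Finset.univ : Finset (Fin n → Bool))) => hA f
  rw [Finset.sum_sub_distrib, ← Finset.sum_mul, sum_cyl, one_mul] at hB
  have hC : ∑ f : Fin n → Bool, μ.real (cyl (List.ofFn f)) * (cx U (List.ofFn f) : ℝ) =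
      avg U μ n := rfl
  rw [hC] at hB
  have hD := hμ m
  linarith

end Q217.CB
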